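import Pool.Agent.Lib.MP_ecc084_pr.TwoDim

/-!
Soft tools: the conditional mean depends only on the covariance, a near-minimiser controls the
equilibrium potential, and a pigeonhole argument on binary sequences.
-/

open MeasureTheory ProbabilityTheory Finset Metric
open scoped InnerProductSpace

namespace Pool.Agent.Lib.MP_ecc084_pr.BK

lemma charFunDual_cov {ι Ω : Type*} [MeasurableSpace Ω] {P : Measure Ω} {f : ι → Ω → ℝ}
    [DecidableEq ι] (hG : IsGaussianProcess f P) (h0 : ∀ x, ∫ ω, f x ω ∂P = 0) (D : Finset ι)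
    (L : StrongDual ℝ (D → ℝ)) :
    charFunDual (P.map fun ω => D.restrict (f · ω)) L =
      Complex.exp (-((∑ x : D, ∑ y : D, L (Pi.single x 1) * L (Pi.single y 1) *
        ∫ ω, f x ω * f y ω ∂P : ℝ) : ℂ) / 2) := by
  have := hG.isProbabilityMeasure
  have hL2 : ∀ y, MemLp (f y) 2 P := fun y => (hG.hasGaussianLaw_eval y).memLp_two
  have hL : (fun ω => L (D.restrict (f · ω))) = fun ω => ∑ x : D, L (Pi.single x 1) * f x ω := by
    funext ω
    conv_lhs => rw [pi_eq_sum_univ' (D.restrict (f · ω))]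
    rw [map_sum]
    refine sum_congr rfl fun x _ => ?_
    rw [map_smul, smul_eq_mul, mul_comm]
    rfl
  have h1 : ∫ ω, L (D.restrict (f · ω)) ∂P = 0 := by
    rw [hL, integral_finsetSum _ fun x _ => ((hL2 _).integrable one_le_two).const_mul _]
    simp [integral_const_mul, h0]
  have h2 : Var[fun ω => L (D.restrict (f · ω)); P] = ∑ x : D, ∑ y : D,
      L (Pi.single x 1) * L (Pi.single y 1) * ∫ ω, f x ω * f y ω ∂P := by
    have hmeas : AEMeasurable (fun ω => ∑ x : D, L (Pi.single x 1) * f x ω) P :=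
      Finset.aemeasurable_fun_sum _ fun x _ => (hG.aemeasurable x).const_mul _
    rw [hL, ← covariance_self hmeas, covariance_fun_sum_fun_sum'
      (fun x _ => (hL2 _).const_mul _) (fun x _ => (hL2 _).const_mul _)]
    refine sum_congr rfl fun x _ => sum_congr rfl fun y _ => ?_
    rw [covariance_const_mul_left, covariance_const_mul_right, covariance_eq_sub (hL2 x) (hL2 y)]
    simp [h0, mul_assoc]
  rw [(hG.hasGaussianLaw D).charFunDual_map_eq, Function.comp_def, h1, h2]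
  simp [neg_div]

lemma cond_mean_map {κ Ω : Type*} [MeasurableSpace Ω] (P : Measure Ω) {X : Ω → κ → ℝ}
    (hX : Measurable X) {B : Set (κ → ℝ)} (hB : MeasurableSet B) (i : κ) :
    ∫ ω, X ω i ∂(cond P (X ⁻¹' B)) = ∫ w, w i ∂(cond (P.map X) B) := by
  have h : (cond P (X ⁻¹' B)).map X = cond (P.map X) B := by
    rw [ProbabilityTheory.cond, ProbabilityTheory.cond, Measure.map_smul,
      Measure.restrict_map hX hB, Measure.map_apply hX hB]
  rw [← h, integral_map hX.aemeasurable (measurable_pi_apply i).aestronglyMeasurable]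

/-- The conditional mean given persistence on `D` depends only on the covariance on `D`. -/
lemma cond_mean_eq {ι Ω : Type*} [MeasurableSpace Ω] {P : Measure Ω} {f f' : ι → Ω → ℝ}
    (hm : ∀ x, Measurable (f x)) (hm' : ∀ x, Measurable (f' x))
    (hG : IsGaussianProcess f P) (hG' : IsGaussianProcess f' P)
    (h0 : ∀ x, ∫ ω, f x ω ∂P = 0) (h0' : ∀ x, ∫ ω, f' x ω ∂P = 0) {D : Set ι} (hD : D.Finite)
    (hc : ∀ x ∈ D, ∀ y ∈ D, ∫ ω, f x ω * f y ω ∂P = ∫ ω, f' x ω * f' y ω ∂P) {x : ι}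
    (hx : x ∈ D) :
    ∫ ω, f x ω ∂(cond P {ω | ∀ y ∈ D, 0 ≤ f y ω}) =
      ∫ ω, f' x ω ∂(cond P {ω | ∀ y ∈ D, 0 ≤ f' y ω}) := by
  classical
  have := hG.isProbabilityMeasure
  lift D to Finset ι using hD
  have hB : MeasurableSet {w : D → ℝ | ∀ y, 0 ≤ w y} := by
    have : {w : D → ℝ | ∀ y, 0 ≤ w y} = ⋂ y, {w : D → ℝ | 0 ≤ w y} := by
      ext w
      simp
    rw [this]
    exact MeasurableSet.iInter fun y => measurableSet_le measurable_const (measurable_pi_apply y)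
  have key : ∀ g : ι → Ω → ℝ, (∀ x, Measurable (g x)) →
      ∫ ω, g x ω ∂(cond P {ω | ∀ y ∈ (D : Set ι), 0 ≤ g y ω}) =
        ∫ w, w ⟨x, hx⟩ ∂(cond (P.map fun ω => D.restrict (g · ω)) {w : D → ℝ | ∀ y, 0 ≤ w y}) := by
    intro g hg
    have hX : Measurable fun ω => D.restrict (g · ω) := measurable_pi_lambda _ fun y => hg y
    have hs : {ω | ∀ y ∈ (D : Set ι), 0 ≤ g y ω} =
        (fun ω => D.restrict (g · ω)) ⁻¹' {w : D → ℝ | ∀ y, 0 ≤ w y} := by
      ext ω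
      exact ⟨fun h y => h y y.2, fun h y hy => h ⟨y, hy⟩⟩
    rw [hs, ← cond_mean_map P hX hB]
    rfl
  have hlaw : (P.map fun ω => D.restrict (f · ω)) = P.map fun ω => D.restrict (f' · ω) := by
    refine Measure.ext_of_charFunDual ?_
    funext L
    rw [charFunDual_cov hG h0, charFunDual_cov hG' h0']
    congr 4
    exact sum_congr rfl fun x _ => sum_congr rfl fun y _ => by rw [hc x x.2 y y.2]
  rw [key f hm, key f' hm', hlaw]

/-- A feasible vector of nearly minimal norm controls the equilibrium potential. -/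
lemma eqPot_near {d : ℕ} (μ : Measure (EuclideanSpace ℝ (Fin d))) [IsFiniteMeasure μ]
    (hsym : μ.map (fun l => -l) = μ) (hpos : ∀ δ : ℝ, 0 < δ → 0 < μ.real (closedBall 0 δ))
    {D : Set (Fin d → ℤ)} (hD : D.Finite) {h : (Fin d → ℤ) → ℝ} (hh : IsEqPot μ D h)
    {g₀ v : Lp ℂ 2 μ} (hg₀ : ∀ x ∈ D, 1 ≤ ⟪chi μ x, g₀⟫_ℝ)
    (hv : ∀ g : Lp ℂ 2 μ, (∀ x ∈ D, 1 ≤ ⟪chi μ x, g⟫_ℝ) → 1 ≤ ⟪v, g⟫_ℝ) {X Y K : ℝ}
    (hX : 0 < X) (h1 : ‖g₀‖ ^ 2 ≤ 1 / X) (h2 : ‖v‖ ^ 2 ≤ Y) (hK : Kc μ 0 ≤ K) (hK0 : 0 < K)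
    (hY : 2 * K * (Y - X) ≤ X ^ 2) (x : Fin d → ℤ) : |h x - ⟪chi μ x, g₀⟫_ℝ| ≤ 1 := by
  obtain ⟨g, hg, hcap⟩ := hh
  have hre : ∀ y, ⟪chi μ y, g⟫_ℝ = h y := fun y => by
    rw [real_inner_eq_re, ← fourierOf_eq_inner, hg.1 y, Complex.ofReal_re]
  have hg1 : ∀ y ∈ D, 1 ≤ ⟪chi μ y, g⟫_ℝ := fun y hy => by rw [hre]; exact hg.2 y hy
  obtain ⟨c, -, -, hmin, -⟩ := cap_spec μ hsym hpos hD.toFinset
  have hmid := hmin ((1 / 2 : ℝ) • (g₀ + g)) fun y hy => by
    have hy' := hD.mem_toFinset.1 hy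
    rw [real_inner_smul_right, inner_add_right]
    linarith [hg₀ y hy', hg1 y hy']
  rw [Set.Finite.coe_toFinset, ← hcap, norm_smul, mul_pow, norm_add_sq_real] at hmid
  have hpar : ‖g - g₀‖ ^ 2 ≤ 2 * (‖g₀‖ ^ 2 - ‖g‖ ^ 2) := by
    rw [norm_sub_sq_real, real_inner_comm]
    norm_num at hmid
    linarith
  have h3 : 1 ≤ Y * ‖g‖ ^ 2 := by
    have a1 := (hv g hg1).trans (real_inner_le_norm v g)
    have a2 : 1 ≤ (‖v‖ * ‖g‖) ^ 2 := one_le_pow₀ a1
    rw [mul_pow] at a2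
    exact a2.trans (mul_le_mul_of_nonneg_right h2 (sq_nonneg _))
  have h4 : X ^ 2 * (‖g₀‖ ^ 2 - ‖g‖ ^ 2) ≤ Y - X := by
    have a1 : X * ‖g₀‖ ^ 2 ≤ 1 := by rwa [le_div_iff₀ hX, mul_comm] at h1
    have a2 : ‖g‖ ^ 2 ≤ ‖g₀‖ ^ 2 := by linarith [sq_nonneg ‖g - g₀‖]
    have a3 : X * ‖g‖ ^ 2 ≤ 1 := (mul_le_mul_of_nonneg_left a2 hX.le).trans a1
    have a4 : 0 ≤ Y := (sq_nonneg _).trans h2
    have a5 : X ≤ Y := by
      have := mul_le_mul_of_nonneg_left h3 hX.le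
      have := mul_le_mul_of_nonneg_left a3 a4
      nlinarith
    have a6 := mul_le_mul_of_nonneg_left a3 (sub_nonneg.2 a5)
    have a7 := mul_le_mul_of_nonneg_left h3 hX.le
    have a8 := mul_le_mul_of_nonneg_left a1 hX.le
    nlinarith
  have h5 : K * ‖g - g₀‖ ^ 2 ≤ 1 := by
    have a1 : 0 < X ^ 2 := by positivity
    refine le_of_mul_le_mul_left ?_ a1
    have a2 := mul_le_mul_of_nonneg_left hpar (mul_pos a1 hK0).le
    have a3 := mul_le_mul_of_nonneg_left h4 hK0.le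
    nlinarith
  have h6 : ‖chi μ x‖ ^ 2 ≤ K := by
    rw [← real_inner_self_eq_norm_sq, real_inner_chi_chi μ hsym, sub_self]
    exact hK
  rw [← hre, ← inner_sub_right, ← sq_le_one_iff_abs_le_one, ← sq_abs]
  refine (pow_le_pow_left₀ (abs_nonneg _) (abs_real_inner_le_norm _ _) 2).trans ?_
  rw [mul_pow]
  exact (mul_le_mul_of_nonneg_right h6 (sq_nonneg _)).trans h5

/-- If two sequences that split at `k` cannot both be good at `k`, then some sequence is bad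
infinitely often. -/
lemma exists_bad (G : (ℕ → Bool) → ℕ → Prop)
    (h : ∀ σ τ k, (∀ j < k, σ j = τ j) → σ k = true → τ k = false → G σ k → G τ k → False) :
    ∃ σ, ∀ k₀, ∃ k, k₀ ≤ k ∧ ¬ G σ k := by
  classical
  by_contra hcon
  push Not at hcon
  choose k₀ hk₀ using hcon
  have hinj : Function.Injective
      fun σ : ℕ → Bool => (⟨k₀ σ, fun i => σ i⟩ : Σ n : ℕ, Fin n → Bool) := by
    intro σ τ hστ
    by_contra hne
    have hex : ∃ k, σ k ≠ τ k := Function.ne_iff.1 hne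
    obtain ⟨e1, e2⟩ := Sigma.mk.inj_iff.1 hστ
    have hlt : ∀ j < Nat.find hex, σ j = τ j := fun j hj => not_not.1 (Nat.find_min hex hj)
    have hk := Nat.find_spec hex
    have hge : k₀ σ ≤ Nat.find hex := by
      by_contra hh
      exact hk ((Fin.heq_fun_iff e1).1 e2 ⟨Nat.find hex, not_le.1 hh⟩)
    have g1 := hk₀ σ _ hge
    have g2 := hk₀ τ _ (e1 ▸ hge)
    cases h1 : σ (Nat.find hex) <;> cases h2 : τ (Nat.find hex)
    · exact hk (h1.trans h2.symm)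
    · exact h τ σ _ (fun j hj => (hlt j hj).symm) h2 h1 g2 g1
    · exact h σ τ _ hlt h1 h2 g1 g2
    · exact hk (h1.trans h2.symm)
  have : Countable (ℕ → Bool) := hinj.countable
  obtain ⟨e, he⟩ := exists_surjective_nat (ℕ → Bool)
  obtain ⟨n, hn⟩ := he fun i => !(e i i)
  have := congrFun hn n
  simp at this

end Pool.Agent.Lib.MP_ecc084_pr.BK
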