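import Pool.Agent.Lib.MP_ecc084_pr.BK.A

/-!
Window averages of cosines, white noise and its discrete imitations, and the symmetric lift of a
measure on the line.
-/

open MeasureTheory Finset Metric Real Filter
open scoped InnerProductSpace

namespace Pool.Agent.Lib.MP_ecc084_pr.BK

lemma tel (t c : ℝ) (W : ℕ) : 2 * sin (t / 2) * ∑ j ∈ range W, cos (t * (c - j)) =
    sin (t * (c + 1 / 2)) - sin (t * (c - W + 1 / 2)) := by
  induction W with
  | zero => simp
  | succ W ih =>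
    rw [sum_range_succ, mul_add, ih]
    have h1 : t * (c - W + 1 / 2) = t * (c - W) + t / 2 := by ring
    have h2 : t * (c - (W + 1 : ℕ) + 1 / 2) = t * (c - W) - t / 2 := by push_cast; ring
    rw [h1, h2, sin_add, sin_sub]
    ring

/-- The symbol of the average over the last `W` points at both ends of `[-n, n]`. -/
noncomputable def gf (n W : ℕ) (t : ℝ) : ℝ := (W : ℝ)⁻¹ * ∑ j ∈ range W, cos (t * ((n : ℝ) - j))

lemma continuous_gf (n W : ℕ) : Continuous (gf n W) := by
  unfold gf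
  fun_prop

lemma abs_gf_le {n W : ℕ} {t e : ℝ} (he : 0 ≤ e)
    (h : ∀ j < W, |cos (t * ((n : ℝ) - j))| ≤ e) : |gf n W t| ≤ e := by
  have h1 : |∑ j ∈ range W, cos (t * ((n : ℝ) - j))| ≤ W * e := by
    refine (abs_sum_le_sum_abs _ _).trans ?_
    have := sum_le_sum fun j (hj : j ∈ range W) => h j (mem_range.1 hj)
    simpa using this
  rw [gf, abs_mul, abs_inv, Nat.abs_cast]
  refine (mul_le_mul_of_nonneg_left h1 (by positivity)).trans ?_
  rw [← mul_assoc]
  exact mul_le_of_le_one_left he inv_mul_le_one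

lemma gf_sq_le_one (n W : ℕ) (t : ℝ) : gf n W t ^ 2 ≤ 1 :=
  (sq_le_one_iff_abs_le_one _).2 (abs_gf_le zero_le_one fun _ _ => abs_cos_le_one _)

lemma gf_far {n W : ℕ} (hW : 1 ≤ W) {t R : ℝ} (hR : 0 < R) (h1 : 1 ≤ R * t) (h2 : t ≤ π) :
    gf n W t ^ 2 ≤ 16 * R ^ 2 / W := by
  have hW' : (1 : ℝ) ≤ W := by exact_mod_cast hW
  have ht : 0 < t := pos_of_mul_pos_right (lt_of_lt_of_le one_pos h1) hR.le
  have hs : 2 / π * (t / 2) ≤ sin (t / 2) := mul_le_sin (by positivity) (by linarith)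
  have hs1 : t / 4 ≤ sin (t / 2) := by
    refine le_trans ?_ hs
    rw [div_mul_div_comm, div_le_div_iff₀ (by norm_num) (by positivity)]
    nlinarith [pi_le_four]
  set S := ∑ j ∈ range W, cos (t * ((n : ℝ) - j)) with hS
  have h3 : sin (t / 2) * |S| ≤ 1 := by
    have h4 := congrArg abs (tel t n W)
    rw [← hS, abs_mul, abs_of_pos (by linarith : 0 < 2 * sin (t / 2))] at h4
    have h5 := abs_sub (sin (t * (n + 1 / 2))) (sin (t * (n - W + 1 / 2)))
    linarith [abs_sin_le_one (t * (n + 1 / 2)), abs_sin_le_one (t * (n - W + 1 / 2))]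
  have h6 : |S| ≤ 4 * R := by
    have a1 := mul_le_mul_of_nonneg_right hs1 (abs_nonneg S)
    have a2 := mul_le_mul_of_nonneg_right h1 (abs_nonneg S)
    have a3 := mul_le_mul_of_nonneg_left (a1.trans h3) hR.le
    nlinarith
  have h7 : S ^ 2 ≤ (4 * R) ^ 2 := by
    rw [← sq_abs]
    exact pow_le_pow_left₀ (abs_nonneg _) h6 2
  rw [gf, ← hS, mul_pow, inv_pow, inv_mul_eq_div]
  refine div_le_div₀ (by positivity) (by linarith) (by positivity) (by nlinarith)

lemma gf_sq (n W : ℕ) (t : ℝ) : gf n W t ^ 2 = ((W : ℝ)⁻¹) ^ 2 / 2 * ∑ i ∈ range W, ∑ j ∈ range W,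
    (cos (t * (((j : ℤ) - i : ℤ) : ℝ)) + cos (t * ((2 * n - i - j : ℤ) : ℝ))) := by
  rw [gf, mul_pow, sq (∑ j ∈ range W, _), sum_mul_sum, mul_sum, mul_sum]
  refine sum_congr rfl fun i _ => ?_
  rw [mul_sum, mul_sum]
  refine sum_congr rfl fun j _ => ?_
  have h1 : t * (((j : ℤ) - i : ℤ) : ℝ) = t * ((n : ℝ) - i) - t * ((n : ℝ) - j) := by
    push_cast; ring
  have h2 : t * ((2 * n - i - j : ℤ) : ℝ) = t * ((n : ℝ) - i) + t * ((n : ℝ) - j) := by
    push_cast; ring
  rw [h1, h2, cos_sub, cos_add]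
  ring

lemma integrable_bdd (ν : Measure ℝ) [IsFiniteMeasure ν] {F : ℝ → ℝ} (hF : Continuous F) (C : ℝ)
    (hC : ∀ t, |F t| ≤ C) : Integrable F ν :=
  Integrable.of_bound hF.aestronglyMeasurable C (Eventually.of_forall hC)

lemma integrable_cos (ν : Measure ℝ) [IsFiniteMeasure ν] (z : ℝ) :
    Integrable (fun t => cos (t * z)) ν :=
  integrable_bdd ν (by fun_prop) 1 fun _ => abs_cos_le_one _

lemma integral_gf_sq (ν : Measure ℝ) [IsFiniteMeasure ν] (n W : ℕ) :
    ∫ t, gf n W t ^ 2 ∂ν = ((W : ℝ)⁻¹) ^ 2 / 2 * ∑ i ∈ range W, ∑ j ∈ range W,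
      (∫ t, cos (t * (((j : ℤ) - i : ℤ) : ℝ)) ∂ν + ∫ t, cos (t * ((2 * n - i - j : ℤ) : ℝ)) ∂ν) := by
  have hi : ∀ a b : ℝ, Integrable (fun t => cos (t * a) + cos (t * b)) ν :=
    fun a b => (integrable_cos ν _).add (integrable_cos ν _)
  simp only [gf_sq]
  rw [integral_const_mul, integral_finsetSum _ fun i _ => integrable_finsetSum _ fun j _ => hi _ _]
  congr 1
  refine sum_congr rfl fun i _ => ?_
  rw [integral_finsetSum _ fun j _ => hi _ _]
  exact sum_congr rfl fun j _ => integral_add (integrable_cos ν _) (integrable_cos ν _)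

/-- The cosine transform of `ν` is that of white noise up to distance `N`. -/
def Wh (N : ℕ) (ν : Measure ℝ) : Prop :=
  ∀ z : ℤ, |z| ≤ N → ∫ t, cos (t * z) ∂ν = if z = 0 then 1 else 0

lemma Wh.integral_gf {n W : ℕ} {ν : Measure ℝ} [IsFiniteMeasure ν] (h : Wh (2 * n) ν)
    (hW : 1 ≤ W) (hn : W ≤ n) : ∫ t, gf n W t ^ 2 ∂ν ≤ 1 / W := by
  have hW' : (0 : ℝ) < W := by exact_mod_cast hW
  have h1 : ∀ i ∈ range W, ∑ j ∈ range W, (∫ t, cos (t * (((j : ℤ) - i : ℤ) : ℝ)) ∂ν +
      ∫ t, cos (t * ((2 * n - i - j : ℤ) : ℝ)) ∂ν) = 1 := by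
    intro i hi
    rw [sum_eq_single i]
    · have := mem_range.1 hi
      rw [h _ (by simp), h _ (by rw [abs_le]; push_cast; omega), if_pos (by simp),
        if_neg (by omega), add_zero]
    · intro j hj hji
      have := mem_range.1 hi
      have := mem_range.1 hj
      rw [h _ (by rw [abs_le]; push_cast; omega), h _ (by rw [abs_le]; push_cast; omega),
        if_neg (by omega), if_neg (by omega), add_zero]
    · exact fun hh => absurd hi hh
  rw [integral_gf_sq, sum_congr rfl h1, sum_const, card_range, nsmul_eq_mul, mul_one]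
  have : ((W : ℝ)⁻¹) ^ 2 / 2 * W = 1 / W / 2 := by field_simp
  rw [this]
  exact half_le_self (by positivity)

/-- The spectral measure of white noise. -/
noncomputable def wh : Measure ℝ := ENNReal.ofReal (2 * π)⁻¹ • nu1

instance : IsProbabilityMeasure wh where
  measure_univ := by
    rw [wh, Measure.smul_apply, nu1_univ, smul_eq_mul, ← ENNReal.ofReal_mul (by positivity),
      inv_mul_cancel₀ (by positivity), ENNReal.ofReal_one]

lemma wh_cos (z : ℤ) : ∫ t, cos (t * z) ∂wh = if z = 0 then 1 else 0 := by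
  rw [wh, integral_smul_measure, integral_cos_nu1, ENNReal.toReal_ofReal (by positivity),
    smul_eq_mul]
  split_ifs
  · exact inv_mul_cancel₀ (by positivity)
  · exact mul_zero _

lemma wh_ac : wh ≪ volume := nu1_ac.smul_left _

lemma wh_compl : wh (Set.Icc (-π) π)ᶜ = 0 := by
  rw [wh, Measure.smul_apply, nu1_compl, smul_zero]

/-- The points of a grid in `(0, π)`. -/
noncomputable def sp (M i : ℕ) : ℝ := π / M * (i + 1 / 2)

/-- The uniform measure on a grid of `M + 1` points. -/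
noncomputable def grid (M : ℕ) : Measure ℝ :=
  ENNReal.ofReal ((M + 1 : ℕ) : ℝ)⁻¹ • ∑ i ∈ range (M + 1), Measure.dirac (sp (M + 1) i)

instance (M : ℕ) : IsProbabilityMeasure (grid M) where
  measure_univ := by
    rw [grid, Measure.smul_apply, Measure.finsetSum_apply]
    simp only [measure_univ, sum_const, card_range, nsmul_eq_mul, mul_one, smul_eq_mul]
    rw [← ENNReal.ofReal_natCast, ← ENNReal.ofReal_mul (by positivity),
      inv_mul_cancel₀ (by positivity), ENNReal.ofReal_one]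

lemma integral_grid (M : ℕ) (F : ℝ → ℝ) :
    ∫ t, F t ∂grid M = ((M + 1 : ℕ) : ℝ)⁻¹ * ∑ i ∈ range (M + 1), F (sp (M + 1) i) := by
  rw [grid, integral_smul_measure, ENNReal.toReal_ofReal (by positivity), smul_eq_mul,
    integral_finsetSum_measure fun i _ => integrable_dirac (by simp)]
  simp only [integral_dirac]

lemma grid_null (M : ℕ) {S : Set ℝ} (h : ∀ i < M + 1, sp (M + 1) i ∉ S) : grid M S = 0 := by
  rw [grid, Measure.smul_apply, Measure.finsetSum_apply, sum_eq_zero, smul_zero]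
  intro i hi
  rw [Measure.dirac_apply, Set.indicator_of_notMem (h i (mem_range.1 hi))]

lemma sp_mem {M i : ℕ} (h : i < M) : 1 ≤ M * sp M i ∧ sp M i ≤ π := by
  have hM : (0 : ℝ) < M := by exact_mod_cast lt_of_le_of_lt (Nat.zero_le i) h
  have hi : (i : ℝ) + 1 ≤ M := by exact_mod_cast h
  have hi0 : (0 : ℝ) ≤ i := Nat.cast_nonneg i
  have h1 : M * sp M i = π * (i + 1 / 2) := by
    unfold sp
    field_simp
  refine ⟨by nlinarith [two_le_pi], le_of_mul_le_mul_left ?_ hM⟩
  nlinarith [pi_pos]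

lemma wh_grid {N M : ℕ} (h : N ≤ 2 * M) : Wh N (grid M) := by
  intro z hz
  rw [integral_grid]
  have hM : (0 : ℝ) < (M + 1 : ℕ) := by positivity
  split_ifs with h0
  · simp only [h0, Int.cast_zero, mul_zero, cos_zero, sum_const, card_range, nsmul_eq_mul, mul_one]
    exact inv_mul_cancel₀ hM.ne'
  · have h1 := tel (z * π / (M + 1 : ℕ)) (-(1 / 2)) (M + 1)
    have h2 : z * π / (M + 1 : ℕ) * (-(1 / 2) - (M + 1 : ℕ) + 1 / 2) = -(z * π) := by
      field_simp
      ring
    have h3 : ∀ i ∈ range (M + 1), cos (z * π / (M + 1 : ℕ) * (-(1 / 2) - i)) =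
        cos (sp (M + 1) i * z) := by
      intro i _
      rw [← cos_neg, sp]
      congr 1
      ring
    rw [h2, sum_congr rfl h3, neg_add_cancel, mul_zero, sin_zero, sin_neg, sin_int_mul_pi,
      neg_zero, sub_zero] at h1
    have h4 : sin (z * π / (M + 1 : ℕ) / 2) ≠ 0 := by
      have hz' : |(z : ℝ)| < 2 * (M + 1 : ℕ) := by
        have : |z| < 2 * (M + 1 : ℕ) := by push_cast; omega
        exact_mod_cast this
      have h5 : |z * π / (M + 1 : ℕ) / 2| < π := by
        rw [abs_div, abs_div, abs_mul, abs_of_pos pi_pos, abs_of_pos hM, abs_two, div_div,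
          div_lt_iff₀ (by positivity)]
        nlinarith [pi_pos]
      rw [Ne, sin_eq_zero_iff_of_lt_of_lt (abs_lt.1 h5).1 (abs_lt.1 h5).2]
      have : (z : ℝ) ≠ 0 := by exact_mod_cast h0
      have := pi_ne_zero
      positivity
    rw [(mul_eq_zero.1 h1).resolve_left (mul_ne_zero two_ne_zero h4), mul_zero]

lemma grid_far {M n W : ℕ} (hW : 1 ≤ W) {R : ℝ} (hR : ((M + 1 : ℕ) : ℝ) ≤ R) :
    ∫ t, gf n W t ^ 2 ∂grid M ≤ 16 * R ^ 2 / W := by
  have hM : (0 : ℝ) < (M + 1 : ℕ) := by positivity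
  rw [integral_grid, inv_mul_le_iff₀ hM]
  have := sum_le_sum fun i (hi : i ∈ range (M + 1)) =>
    (gf_far (n := n) hW hM (sp_mem (mem_range.1 hi)).1 (sp_mem (mem_range.1 hi)).2)
  rw [sum_const, card_range, nsmul_eq_mul] at this
  refine this.trans (mul_le_mul_of_nonneg_left ?_ hM.le)
  gcongr

end Pool.Agent.Lib.MP_ecc084_pr.BK
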