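import Pool.Agent.Lib.MP_ecc084_pr.BK.B

/-!
The symmetric lift of a measure on the line to the one-dimensional Euclidean space.
-/

open MeasureTheory Finset Metric Real Filter
open scoped InnerProductSpace

namespace Pool.Agent.Lib.MP_ecc084_pr.BK

/-- A real number as a point of the one-dimensional Euclidean space. -/
noncomputable def pt (t : ℝ) : EuclideanSpace ℝ (Fin 1) := WithLp.toLp 2 fun _ => t

lemma measurePreserving_pt : MeasurePreserving pt volume volume :=
  (PiLp.volume_preserving_toLp (Fin 1)).comp (volume_preserving_funUnique (Fin 1) ℝ).symm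

lemma measurable_pt : Measurable pt := measurePreserving_pt.measurable

lemma measurable_npt : Measurable fun t => -pt t := measurable_pt.neg

lemma pt_injective : Function.Injective pt := fun _ _ h => congrArg (fun l => l 0) h

lemma norm_pt (t : ℝ) : ‖pt t‖ = |t| := by
  simp [pt, EuclideanSpace.norm_eq, sqrt_sq_eq_abs]

lemma ph_pt (z : Fin 1 → ℤ) (t : ℝ) : ph z (pt t) = t * z 0 := by
  simp [ph, pt, emb, PiLp.inner_apply, mul_comm]

lemma mem_latBall_one {T : ℝ} {x : Fin 1 → ℤ} : x ∈ latBall 1 T ↔ |(x 0 : ℝ)| ≤ T := by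
  simp [latBall, emb, EuclideanSpace.norm_eq, sqrt_sq_eq_abs]

lemma finite_latBall_one (T : ℝ) : (latBall 1 T).Finite := by
  refine (Set.Finite.pi fun _ : Fin 1 => Set.finite_Icc (-(⌈T⌉₊ : ℤ)) ⌈T⌉₊).subset
    fun x hx i _ => ?_
  have h1 := (mem_latBall_one.1 hx).trans (Nat.le_ceil T)
  rw [Subsingleton.elim i 0, Set.mem_Icc, ← abs_le]
  exact_mod_cast h1

/-- The symmetric lift. -/
noncomputable def sy (ν : Measure ℝ) : Measure (EuclideanSpace ℝ (Fin 1)) :=
  ν.map pt + ν.map fun t => -pt t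

instance (ν : Measure ℝ) [IsFiniteMeasure ν] : IsFiniteMeasure (sy ν) := by
  unfold sy
  infer_instance

lemma sy_add (ν ν' : Measure ℝ) : sy (ν + ν') = sy ν + sy ν' := by
  unfold sy
  rw [Measure.map_add _ _ measurable_pt, Measure.map_add _ _ measurable_npt, add_add_add_comm]

lemma sy_symm (ν : Measure ℝ) : (sy ν).map (fun l => -l) = sy ν := by
  unfold sy
  rw [Measure.map_add _ _ measurable_neg, Measure.map_map measurable_neg measurable_pt,
    Measure.map_map measurable_neg measurable_npt, add_comm]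
  simp only [Function.comp_def, neg_neg]

lemma sy_apply (ν : Measure ℝ) {S : Set (EuclideanSpace ℝ (Fin 1))} (hS : MeasurableSet S) :
    sy ν S = ν (pt ⁻¹' S) + ν ((fun t => -pt t) ⁻¹' S) := by
  rw [sy, Measure.add_apply, Measure.map_apply measurable_pt hS,
    Measure.map_apply measurable_npt hS]

lemma sy_real (ν : Measure ℝ) [IsFiniteMeasure ν] {S : Set (EuclideanSpace ℝ (Fin 1))}
    (hS : MeasurableSet S) :
    (sy ν).real S = ν.real (pt ⁻¹' S) + ν.real ((fun t => -pt t) ⁻¹' S) := by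
  rw [Measure.real, sy_apply ν hS, ENNReal.toReal_add (measure_ne_top _ _) (measure_ne_top _ _)]
  rfl

lemma sy_univ (ν : Measure ℝ) [IsFiniteMeasure ν] :
    (sy ν).real Set.univ = 2 * ν.real Set.univ := by
  rw [sy_real ν MeasurableSet.univ, Set.preimage_univ, Set.preimage_univ, two_mul]

lemma sy_ge (ν : Measure ℝ) [IsFiniteMeasure ν] {S : Set (EuclideanSpace ℝ (Fin 1))}
    (hS : MeasurableSet S) {θ : ℝ} (h1 : pt θ ∈ S) (h2 : -pt θ ∈ S) :
    2 * ν.real {θ} ≤ (sy ν).real S := by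
  rw [sy_real ν hS, two_mul]
  exact add_le_add (measureReal_mono (Set.singleton_subset_iff.2 h1) (measure_ne_top _ _))
    (measureReal_mono (Set.singleton_subset_iff.2 h2) (measure_ne_top _ _))

lemma sy_ac {ν : Measure ℝ} (h : ν ≪ volume) : sy ν ≪ volume := by
  have h1 : MeasurePreserving (fun t => -pt t) volume volume :=
    (Measure.measurePreserving_neg _).comp measurePreserving_pt
  refine Measure.AbsolutelyContinuous.add_left ?_ ?_
  · rw [← measurePreserving_pt.map_eq]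
    exact h.map measurable_pt
  · rw [← h1.map_eq]
    exact h.map measurable_npt

lemma sy_supp {ν : Measure ℝ} (h : ν (Set.Icc (-π) π)ᶜ = 0) : sy ν {l | ∃ i, π < |l i|} = 0 := by
  have hm : MeasurableSet {l : EuclideanSpace ℝ (Fin 1) | ∃ i, π < |l i|} := by
    have : {l : EuclideanSpace ℝ (Fin 1) | ∃ i, π < |l i|} = ⋃ i, {l | π < |l i|} := by
      ext l
      simp
    rw [this]
    exact MeasurableSet.iUnion fun i => measurableSet_lt measurable_const (by fun_prop)
  rw [sy_apply ν hm, measure_mono_null ?_ h, measure_mono_null ?_ h, add_zero]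
  · rintro t ⟨i, hi⟩ ht
    have : π < |-t| := hi
    rw [abs_neg] at this
    exact absurd (abs_le.2 ht) (not_le.2 this)
  · rintro t ⟨i, hi⟩ ht
    exact absurd (abs_le.2 ht) (not_le.2 hi)

lemma sy_countable {ν : Measure ℝ} {S : Set ℝ} (hS : S.Countable) (h : ν Sᶜ = 0) :
    ∃ S' : Set (EuclideanSpace ℝ (Fin 1)), S'.Countable ∧ sy ν S'ᶜ = 0 := by
  have hc : (pt '' S ∪ (fun t => -pt t) '' S).Countable := (hS.image _).union (hS.image _)
  refine ⟨_, hc, ?_⟩
  rw [sy_apply ν hc.measurableSet.compl, measure_mono_null ?_ h, measure_mono_null ?_ h, add_zero]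
  · exact fun t ht hs => ht (Or.inr ⟨t, hs, rfl⟩)
  · exact fun t ht hs => ht (Or.inl ⟨t, hs, rfl⟩)

variable (ν : Measure ℝ) [IsFiniteMeasure ν]

lemma Kc_sy (z : Fin 1 → ℤ) : Kc (sy ν) z = 2 * ∫ t, cos (t * z 0) ∂ν := by
  have hc : Continuous fun l => cos (ph z l) := continuous_cos.comp (continuous_ph z)
  rw [Kc, sy, integral_add_measure (integrable_cos_ph _ z) (integrable_cos_ph _ z),
    integral_map measurable_pt.aemeasurable hc.aestronglyMeasurable,
    integral_map measurable_npt.aemeasurable hc.aestronglyMeasurable]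
  simp only [ph_neg, cos_neg, ph_pt, two_mul]

/-- The test function carried by a pair of atoms. -/
lemma test_atom {θ a η : ℝ} (ha : 0 < a) (hη : 0 < η) (h : a ≤ ν.real {θ}) :
    ∃ g : Lp ℂ 2 (sy ν), ‖g‖ ^ 2 ≤ 1 / (2 * a * η ^ 2) ∧
      ∀ x, ⟪chi (sy ν) x, g⟫_ℝ = cos (θ * x 0) / η := by
  have hS : MeasurableSet ({pt θ, -pt θ} : Set (EuclideanSpace ℝ (Fin 1))) :=
    (Set.toFinite _).measurableSet
  have hA := sy_ge ν hS (θ := θ) (by simp) (by simp)
  set A := (sy ν).real {pt θ, -pt θ} with hAdef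
  have hpos : 0 < A := by linarith
  refine ⟨indicatorConstLp 2 hS (measure_ne_top _ _) ((1 / (A * η) : ℝ) : ℂ), ?_, fun x => ?_⟩
  · rw [norm_indicatorConstLp two_ne_zero ENNReal.ofNat_ne_top, Complex.norm_real,
      Real.norm_eq_abs, mul_pow, sq_abs, ← hAdef, ← Real.rpow_natCast (A ^ _),
      ← Real.rpow_mul hpos.le]
    have h1 : (1 / (2 : ENNReal).toReal * ((2 : ℕ) : ℝ)) = 1 := by norm_num
    have h2 : (1 / (A * η)) ^ 2 * A = 1 / (A * η ^ 2) := by field_simp
    rw [h1, Real.rpow_one, h2]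
    gcongr
    linarith
  · rw [real_inner_comm, L2.inner_indicatorConstLp_eq_setIntegral_inner]
    have h1 : ∫ l in {pt θ, -pt θ}, ⟪((1 / (A * η) : ℝ) : ℂ), chi (sy ν) x l⟫_ℝ ∂sy ν =
        ∫ l in {pt θ, -pt θ}, 1 / (A * η) * cos (ph x l) ∂sy ν := by
      refine integral_congr_ae (ae_restrict_of_ae ?_)
      filter_upwards [(memLp_chi (sy ν) x).coeFn_toLp] with l hl
      rw [chi, hl, Complex.inner, Complex.conj_ofReal, Complex.mul_re, Complex.ofReal_re,
        Complex.ofReal_im, Complex.exp_ofReal_mul_I_re]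
      ring
    rw [h1, setIntegral_congr_fun hS (g := fun _ => 1 / (A * η) * cos (θ * x 0)),
      setIntegral_const, smul_eq_mul, ← hAdef]
    · field_simp
    · rintro l (rfl | rfl)
      · simp only [ph_pt]
      · simp only [ph_neg, cos_neg, ph_pt]

/-- The vector of the window average. -/
lemma window {n W : ℕ} (hW : 1 ≤ W) (hn : W ≤ n) :
    ∃ v : Lp ℂ 2 (sy ν), ‖v‖ ^ 2 = 2 * ∫ t, gf n W t ^ 2 ∂ν ∧ ∀ g : Lp ℂ 2 (sy ν),
      (∀ x ∈ latBall 1 (n : ℝ), 1 ≤ ⟪chi (sy ν) x, g⟫_ℝ) → 1 ≤ ⟪v, g⟫_ℝ := by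
  have hW' : (0 : ℝ) < W := by exact_mod_cast hW
  refine ⟨∑ j ∈ range W, (2 * W : ℝ)⁻¹ •
    (chi (sy ν) (fun _ => (n : ℤ) - j) + chi (sy ν) fun _ => (j : ℤ) - n), ?_, fun g hg => ?_⟩
  · rw [← real_inner_self_eq_norm_sq, inner_sum_sum, integral_gf_sq, ← mul_assoc, mul_sum]
    refine sum_congr rfl fun i _ => ?_
    rw [mul_sum]
    refine sum_congr rfl fun j _ => ?_
    simp only [inner_add_left, inner_add_right, real_inner_chi_chi _ (sy_symm ν), Kc_sy,
      Pi.sub_apply]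
    have e1 : ((n : ℤ) - i - (n - j)) = j - i := by ring
    have e2 : ((n : ℤ) - i - (j - n)) = 2 * n - i - j := by ring
    have e3 : ((i : ℤ) - n - (n - j)) = -(2 * n - i - j) := by ring
    have e4 : ((i : ℤ) - n - (j - n)) = -(j - i) := by ring
    rw [e1, e2, e3, e4]
    simp only [Int.cast_neg, mul_neg, cos_neg]
    generalize ∫ t, cos (t * (((j : ℤ) - i : ℤ) : ℝ)) ∂ν = u
    generalize ∫ t, cos (t * ((2 * n - i - j : ℤ) : ℝ)) ∂ν = w
    field_simp
    ring
  · rw [sum_inner]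
    have h1 : ∀ j ∈ range W, (W : ℝ)⁻¹ ≤ ⟪(2 * W : ℝ)⁻¹ •
        (chi (sy ν) (fun _ => (n : ℤ) - j) + chi (sy ν) fun _ => (j : ℤ) - n), g⟫_ℝ := by
      intro j hj
      have hj' : (j : ℝ) ≤ n := by exact_mod_cast (mem_range.1 hj).le.trans hn
      have hj0 : (0 : ℝ) ≤ j := Nat.cast_nonneg j
      have a1 := hg (fun _ => (n : ℤ) - j) (mem_latBall_one.2 (by
        push_cast; rw [abs_le]; constructor <;> linarith))
      have a2 := hg (fun _ => (j : ℤ) - n) (mem_latBall_one.2 (by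
        push_cast; rw [abs_le]; constructor <;> linarith))
      rw [real_inner_smul_left, inner_add_left]
      calc (W : ℝ)⁻¹ = (2 * W : ℝ)⁻¹ * 2 := by field_simp
        _ ≤ _ := mul_le_mul_of_nonneg_left (by linarith) (by positivity)
    have := sum_le_sum h1
    rwa [sum_const, card_range, nsmul_eq_mul, mul_inv_cancel₀ hW'.ne'] at this

omit [IsFiniteMeasure ν] in
lemma sy_mono {ν' : Measure ℝ} (h : ν ≤ ν') : sy ν ≤ sy ν' :=
  add_le_add (Measure.map_mono h measurable_pt) (Measure.map_mono h measurable_npt)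

lemma nondeg_sy (h : wh ≤ ν) (I : Finset (Fin 1 → ℤ)) (c : (Fin 1 → ℤ) → ℝ)
    (hc : ∃ x ∈ I, c x ≠ 0) : 0 < ∑ x ∈ I, ∑ y ∈ I, c x * c y * Kc (sy ν) (x - y) := by
  rw [← integral_Gq]
  refine lt_of_lt_of_le ?_ (integral_mono_measure (sy_mono wh h)
    (Eventually.of_forall (Gq_nonneg I c)) (integrable_Gq (sy ν) I c))
  have h1 : ∀ x y : Fin 1 → ℤ, Kc (sy wh) (x - y) = if x = y then 2 else 0 := by
    intro x y
    rw [Kc_sy, wh_cos]
    by_cases hxy : x = y
    · simp [hxy]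
    · rw [if_neg hxy, if_neg, mul_zero]
      exact fun h0 => hxy (funext fun i => by
        rw [Subsingleton.elim i 0]; exact sub_eq_zero.1 h0)
  rw [integral_Gq]
  simp only [h1, mul_ite, mul_zero, sum_ite_eq]
  obtain ⟨x, hx, hcx⟩ := hc
  refine sum_pos' (fun y hy => ?_) ⟨x, hx, ?_⟩
  · rw [if_pos hy]
    nlinarith [mul_self_nonneg (c y)]
  · rw [if_pos hx]
    nlinarith [mul_self_pos.2 hcx]

end Pool.Agent.Lib.MP_ecc084_pr.BK
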