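import Pool.Agent.Lib.MP_ecc084_pr.BK.C

/-!
The parameters of the construction.
-/

open Finset Real Filter Topology

namespace Pool.Agent.Lib.MP_ecc084_pr.BK

/-- The masses of the switching pieces. -/
noncomputable def bb (k : ℕ) : ℝ := (1 / 4) ^ k

/-- The heights of the equilibrium potentials at the centre. -/
noncomputable def AA (k : ℕ) : ℝ := 64 * 8 ^ k

/-- The masses of the atoms near the origin. -/
noncomputable def aa : ℕ → ℝ
  | 0 => 1 / 2
  | k + 1 => aa k ^ 2 / AA k ^ 4 / 64 * (1 / 2) ^ (k + 1)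

/-- The error budget. -/
noncomputable def be (k : ℕ) : ℝ := aa k ^ 2 / AA k ^ 4 / 64

/-- The window length, given the previous scale. -/
noncomputable def Wf (k q : ℕ) : ℕ := ⌈16 * (q : ℝ) ^ 2 / be k⌉₊

/-- The next scale, given the previous one. -/
noncomputable def nf (k q : ℕ) : ℕ := ⌈2 * (Wf k q : ℝ) / be k⌉₊ + ⌈2 / aa (k + 1) ^ k⌉₊ + q

/-- The scales, shifted by one. -/
noncomputable def pp : ℕ → ℕ
  | 0 => 1
  | k + 1 => nf k (pp k) + 1

/-- The scales. -/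
noncomputable def nn (k : ℕ) : ℕ := nf k (pp k)

/-- The window lengths. -/
noncomputable def WW (k : ℕ) : ℕ := Wf k (pp k)

/-- The positions of the atoms near the origin. -/
noncomputable def th (k : ℕ) : ℝ := arccos (AA k)⁻¹ / nn k

lemma bb_pos (k : ℕ) : 0 < bb k := by unfold bb; positivity

lemma le_AA (k : ℕ) : 64 ≤ AA k := le_mul_of_one_le_right (by norm_num) (one_le_pow₀ (by norm_num))

lemma AA_pos (k : ℕ) : 0 < AA k := lt_of_lt_of_le (by norm_num) (le_AA k)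

lemma aa_pos (k : ℕ) : 0 < aa k := by
  induction k with
  | zero => simp [aa]
  | succ k ih =>
    have := AA_pos k
    unfold aa
    positivity

lemma be_pos (k : ℕ) : 0 < be k := by
  have := AA_pos k
  have := aa_pos k
  unfold be
  positivity

lemma aa_succ (k : ℕ) : aa (k + 1) = be k * (1 / 2) ^ (k + 1) := rfl

lemma be_le_of {k : ℕ} (h : aa k ≤ 1 / 2) : be k ≤ aa k := by
  have h1 : 1 ≤ AA k ^ 4 := one_le_pow₀ (le_trans (by norm_num) (le_AA k))
  have h2 := aa_pos k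
  have h3 : aa k ^ 2 / AA k ^ 4 ≤ aa k ^ 2 := div_le_self (by positivity) h1
  unfold be
  nlinarith

lemma aa_succ_le_be (k : ℕ) : aa (k + 1) ≤ be k := by
  rw [aa_succ]
  exact mul_le_of_le_one_right (be_pos k).le (pow_le_one₀ (by norm_num) (by norm_num))

lemma aa_le_half (k : ℕ) : aa k ≤ 1 / 2 := by
  induction k with
  | zero => simp [aa]
  | succ k ih => exact (aa_succ_le_be k).trans ((be_le_of ih).trans ih)

lemma be_le_half (k : ℕ) : be k ≤ 1 / 2 := (be_le_of (aa_le_half k)).trans (aa_le_half k)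

lemma be_anti : Antitone be := antitone_nat_of_succ_le fun k =>
  (be_le_of (aa_le_half _)).trans (aa_succ_le_be k)

lemma aa_le (k : ℕ) : aa k ≤ 1 / 2 * (1 / 2) ^ k := by
  cases k with
  | zero => simp [aa]
  | succ k => exact mul_le_mul_of_nonneg_right (be_le_half k) (by positivity)

lemma aa_le_be {k j : ℕ} (h : k < j) : aa j ≤ be k * (1 / 2) ^ j := by
  obtain ⟨i, rfl⟩ := Nat.exists_eq_succ_of_ne_zero (Nat.ne_zero_of_lt h)
  exact mul_le_mul_of_nonneg_right (be_anti (Nat.le_of_lt_succ h)) (by positivity)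

lemma pp_succ (k : ℕ) : pp (k + 1) = nn k + 1 := rfl

lemma pp_le_nn (k : ℕ) : pp k ≤ nn k := Nat.le_add_left _ _

lemma pp_mono : StrictMono pp := strictMono_nat_of_lt_succ fun k => Nat.lt_succ_of_le (pp_le_nn k)

lemma one_le_pp (k : ℕ) : 1 ≤ pp k := pp_mono.monotone (Nat.zero_le k)

lemma nn_mono : StrictMono nn := fun a b h => by
  have := pp_mono (Nat.succ_lt_succ h)
  rw [pp_succ, pp_succ] at this
  omega

lemma WW_spec (k : ℕ) : 16 * (pp k : ℝ) ^ 2 / WW k ≤ be k ∧ 1 ≤ WW k := by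
  have h1 : 16 * (pp k : ℝ) ^ 2 / be k ≤ WW k := Nat.le_ceil _
  have h2 : (1 : ℝ) ≤ pp k := by exact_mod_cast one_le_pp k
  have h3 := be_pos k
  have h4 : (0 : ℝ) < WW k := lt_of_lt_of_le (by positivity) h1
  refine ⟨?_, by exact_mod_cast h4⟩
  rw [div_le_iff₀ h3] at h1
  rw [div_le_iff₀ h4]
  linarith

lemma nn_spec (k : ℕ) : 2 * (WW k : ℝ) ≤ be k * nn k ∧ 2 ≤ aa (k + 1) ^ k * nn k := by
  have h1 : 2 * (WW k : ℝ) / be k ≤ nn k :=
    (Nat.le_ceil _).trans (Nat.cast_le.2 ((Nat.le_add_right _ _).trans (Nat.le_add_right _ _)))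
  have h2 : 2 / aa (k + 1) ^ k ≤ nn k :=
    (Nat.le_ceil _).trans (Nat.cast_le.2 ((Nat.le_add_left _ _).trans (Nat.le_add_right _ _)))
  rw [div_le_iff₀ (be_pos k)] at h1
  rw [div_le_iff₀ (pow_pos (aa_pos _) k)] at h2
  exact ⟨by linarith, by linarith⟩

lemma WW_le_nn (k : ℕ) : 2 * WW k ≤ nn k := by
  have h1 := (nn_spec k).1
  have h2 := mul_le_mul_of_nonneg_right (be_le_half k) (Nat.cast_nonneg (α := ℝ) (nn k))
  have h3 : (0 : ℝ) ≤ nn k := Nat.cast_nonneg _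
  have : (2 * WW k : ℝ) ≤ nn k := by linarith
  exact_mod_cast this

lemma nn_pos (k : ℕ) : (0 : ℝ) < nn k := by exact_mod_cast (one_le_pp k).trans (pp_le_nn k)

lemma inv_AA (k : ℕ) : 0 < (AA k)⁻¹ ∧ (AA k)⁻¹ ≤ 1 / 2 :=
  ⟨inv_pos.2 (AA_pos k), by
    rw [one_div]; exact inv_anti₀ (by norm_num) (le_trans (by norm_num) (le_AA k))⟩

lemma th_mul (k : ℕ) : th k * nn k = arccos (AA k)⁻¹ := div_mul_cancel₀ _ (nn_pos k).ne'

lemma th_mul_mem (k : ℕ) : 1 ≤ th k * nn k ∧ th k * nn k ≤ π / 2 := by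
  rw [th_mul]
  refine ⟨?_, arccos_le_pi_div_two.2 (inv_AA k).1.le⟩
  have h1 : (AA k)⁻¹ ≤ cos 1 := by
    have := one_sub_sq_div_two_le_cos (x := 1)
    linarith [(inv_AA k).2]
  have h2 := arccos_le_arccos h1
  rwa [arccos_cos zero_le_one (by linarith [two_le_pi])] at h2

lemma cos_th (k : ℕ) : cos (th k * nn k) = (AA k)⁻¹ := by
  rw [th_mul, cos_arccos (by linarith [(inv_AA k).1]) (by linarith [(inv_AA k).2])]

lemma th_pos (k : ℕ) : 0 < th k :=
  pos_of_mul_pos_left (lt_of_lt_of_le one_pos (th_mul_mem k).1) (nn_pos k).le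

lemma th_le_pow (k : ℕ) : th k ≤ aa (k + 1) ^ k := by
  refine le_of_mul_le_mul_right ?_ (nn_pos k)
  linarith [(th_mul_mem k).2, (nn_spec k).2, pi_le_four]

lemma th_le_one (k : ℕ) : th k ≤ 1 :=
  (th_le_pow k).trans (pow_le_one₀ (aa_pos _).le ((aa_le_half _).trans (by norm_num)))

lemma th_le_pi (k : ℕ) : th k ≤ π := by linarith [th_le_one k, two_le_pi]

lemma tendsto_th : Tendsto th atTop (𝓝 0) :=
  squeeze_zero (fun k => (th_pos k).le)
    (fun k => (th_le_pow k).trans (pow_le_pow_left₀ (aa_pos _).le (aa_le_half _) k))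
    (tendsto_pow_atTop_nhds_zero_of_lt_one (by norm_num) (by norm_num))

lemma th_WW (k : ℕ) : th k * WW k ≤ be k := by
  refine le_of_mul_le_mul_right ?_ (nn_pos k)
  have h1 : th k * nn k ≤ 2 := by linarith [(th_mul_mem k).2, pi_le_four]
  have h2 := mul_le_mul_of_nonneg_right h1 (Nat.cast_nonneg (α := ℝ) (WW k))
  linarith [(nn_spec k).1]

lemma gf_th (k : ℕ) : |gf (nn k) (WW k) (th k)| ≤ (AA k)⁻¹ + be k := by
  refine abs_gf_le (add_nonneg (inv_AA k).1.le (be_pos k).le) fun j hj => ?_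
  have h1 := abs_cos_sub_cos_le (th k * ((nn k : ℝ) - j)) (th k * nn k)
  have h2 : th k * ((nn k : ℝ) - j) - th k * nn k = -(th k * j) := by ring
  have h3 : th k * j ≤ th k * WW k :=
    mul_le_mul_of_nonneg_left (by exact_mod_cast hj.le) (th_pos k).le
  rw [h2, abs_neg, abs_of_nonneg (mul_nonneg (th_pos k).le (Nat.cast_nonneg j)), cos_th] at h1
  have h4 := abs_sub_abs_le_abs_sub (cos (th k * ((nn k : ℝ) - j))) (AA k)⁻¹
  rw [abs_of_pos (inv_AA k).1] at h4
  linarith [th_WW k]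

lemma le_cos_th (k : ℕ) {x : ℝ} (hx : |x| ≤ nn k) : (AA k)⁻¹ ≤ cos (th k * x) := by
  rw [← cos_th, ← cos_abs (th k * x), abs_mul, abs_of_pos (th_pos k)]
  exact cos_le_cos_of_nonneg_of_le_pi (mul_nonneg (th_pos k).le (abs_nonneg _))
    (by linarith [(th_mul_mem k).2, pi_pos]) (mul_le_mul_of_nonneg_left hx (th_pos k).le)

/-- Two masses that differ by `4 b / 3` cannot both give the height `A` up to `2 ^ (k + 1)`. -/
lemma ratio_contra (k : ℕ) {E m m' L : ℝ} (hm : 0 < m) (hm1 : m ≤ 16 / 3)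
    (hgap : m + 4 / 3 * bb k ≤ m') (h1 : |(√(2 * m * L))⁻¹ * E - AA k| < 2 * 2 ^ k)
    (h2 : |(√(2 * m' * L))⁻¹ * E - AA k| < 2 * 2 ^ k) : False := by
  have hb := bb_pos k
  have hx : (1 : ℝ) ≤ 2 ^ k := one_le_pow₀ (by norm_num)
  have hA : AA k = 64 * (2 ^ k) ^ 3 := by
    rw [AA, ← pow_mul, mul_comm k 3, pow_mul]
    norm_num
  have hB : bb k * (2 ^ k) ^ 2 = 1 := by
    rw [bb, ← pow_mul, mul_comm k 2, pow_mul, ← mul_pow]
    norm_num
  generalize (2 : ℝ) ^ k = x at *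
  generalize bb k = b at *
  have hx3 : x ≤ x ^ 3 := le_self_pow₀ hx (by norm_num)
  rw [hA, abs_lt] at h1 h2
  have hL : 0 < L := by
    by_contra hL
    rw [sqrt_eq_zero_of_nonpos (mul_nonpos_of_nonneg_of_nonpos (by positivity) (not_lt.1 hL))] at h1
    simp only [inv_zero, zero_mul] at h1
    linarith [h1.1]
  have hm' : 0 < m' := by linarith
  have hs : 0 < √(2 * m * L) := sqrt_pos.2 (by positivity)
  have hs' : 0 < √(2 * m' * L) := sqrt_pos.2 (by positivity)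
  have a1 : E < √(2 * m * L) * (64 * x ^ 3 + 2 * x) := by
    rw [← inv_mul_lt_iff₀ hs]
    linarith [h1.2]
  have a2 : √(2 * m' * L) * (64 * x ^ 3 - 2 * x) < E := by
    rw [← lt_inv_mul_iff₀ hs']
    linarith [h2.1]
  have a3 := pow_lt_pow_left₀ (a2.trans a1) (mul_nonneg hs'.le (by linarith)) two_ne_zero
  rw [mul_pow, mul_pow, sq_sqrt (by positivity), sq_sqrt (by positivity)] at a3
  have a4 : m' * (64 * x ^ 3 - 2 * x) ^ 2 < m * (64 * x ^ 3 + 2 * x) ^ 2 := by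
    refine lt_of_mul_lt_mul_left ?_ (show 0 ≤ 2 * L by positivity)
    linarith
  have a5 := mul_le_mul_of_nonneg_right hgap (sq_nonneg (64 * x ^ 3 - 2 * x))
  have a6 : (62 * x ^ 3) ^ 2 ≤ (64 * x ^ 3 - 2 * x) ^ 2 :=
    pow_le_pow_left₀ (by positivity) (by linarith) 2
  have a7 := mul_le_mul_of_nonneg_left a6 hb.le
  have a8 : b * (62 * x ^ 3) ^ 2 = 3844 * x ^ 4 := by linear_combination 3844 * x ^ 4 * hB
  have a9 : 0 < x ^ 4 := by positivity
  have a10 := mul_le_mul_of_nonneg_right hm1 a9.le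
  nlinarith

end Pool.Agent.Lib.MP_ecc084_pr.BK
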