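import Pool.Agent.Lib.MP_ecc084_pr.BK.D

/-!
The family of spectral measures indexed by binary sequences.
-/

open MeasureTheory Finset Metric Real Filter Topology
open scoped InnerProductSpace

namespace Pool.Agent.Lib.MP_ecc084_pr.BK

/-- The absolutely continuous pieces. -/
noncomputable def ac (σ : ℕ → Bool) (j : ℕ) : Measure ℝ :=
  ENNReal.ofReal (bb j + if σ j then bb j else 0) • wh

/-- The discrete pieces. -/
noncomputable def di (σ : ℕ → Bool) (j : ℕ) : Measure ℝ :=
  ENNReal.ofReal (aa j) • Measure.dirac (th j) +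
    ENNReal.ofReal (if σ j then 0 else bb j) • grid (nn j)

/-- The absolutely continuous part. -/
noncomputable def nuA (σ : ℕ → Bool) : Measure ℝ := Measure.sum (ac σ)

/-- The discrete part. -/
noncomputable def nuD (σ : ℕ → Bool) : Measure ℝ := Measure.sum (di σ)

/-- The whole measure on the line. -/
noncomputable def nu (σ : ℕ → Bool) : Measure ℝ := nuA σ + nuD σ

lemma hasSum_bb : HasSum bb (4 / 3) := by
  have h := hasSum_geometric_of_lt_one (r := (1 / 4 : ℝ)) (by norm_num) (by norm_num)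
  norm_num at h
  exact h

lemma finite_sum {μ : ℕ → Measure ℝ} {c : ℕ → ℝ} (hc : Summable c) (h0 : ∀ j, 0 ≤ c j)
    (h : ∀ j, μ j Set.univ ≤ ENNReal.ofReal (c j)) : IsFiniteMeasure (Measure.sum μ) where
  measure_univ_lt_top := by
    rw [Measure.sum_apply _ MeasurableSet.univ]
    refine lt_of_le_of_lt (ENNReal.tsum_le_tsum h) ?_
    rw [← ENNReal.ofReal_tsum_of_nonneg h0 hc]
    exact ENNReal.ofReal_lt_top

lemma ite_mem (p : Bool) (j : ℕ) : (0 ≤ if p then bb j else 0) ∧ (if p then bb j else 0) ≤ bb j ∧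
    (0 ≤ if p then 0 else bb j) ∧ (if p then 0 else bb j) ≤ bb j := by
  have := (bb_pos j).le
  cases p <;> simp [this]

instance (σ : ℕ → Bool) : IsFiniteMeasure (nuA σ) :=
  finite_sum (hasSum_bb.add hasSum_bb).summable (fun j => by linarith [bb_pos j]) fun j => by
    rw [ac, Measure.smul_apply, measure_univ, smul_eq_mul, mul_one]
    exact ENNReal.ofReal_le_ofReal (by linarith [ite_mem (σ j) j])

instance (σ : ℕ → Bool) : IsFiniteMeasure (nuD σ) :=
  finite_sum ((hasSum_geometric_two.mul_left (1 / 2)).add hasSum_bb).summable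
    (fun j => by have := bb_pos j; positivity) fun j => by
    rw [di, Measure.add_apply, Measure.smul_apply, Measure.smul_apply, measure_univ, measure_univ,
      smul_eq_mul, smul_eq_mul, mul_one, mul_one,
      ← ENNReal.ofReal_add (aa_pos j).le (ite_mem (σ j) j).2.2.1]
    exact ENNReal.ofReal_le_ofReal (by linarith [ite_mem (σ j) j, aa_le j])

instance (σ : ℕ → Bool) : IsFiniteMeasure (nu σ) := by
  unfold nu
  infer_instance

lemma hasSum_nuA (σ : ℕ → Bool) {F : ℝ → ℝ} (hF : Continuous F) (hC : ∀ t, |F t| ≤ 1) :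
    HasSum (fun j => (bb j + if σ j then bb j else 0) * ∫ t, F t ∂wh) (∫ t, F t ∂nuA σ) := by
  have h := hasSum_integral_measure (μ := ac σ) (integrable_bdd (nuA σ) hF 1 hC)
  have e : ∀ j, ∫ t, F t ∂ac σ j = (bb j + if σ j then bb j else 0) * ∫ t, F t ∂wh := fun j => by
    rw [ac, integral_smul_measure, smul_eq_mul,
      ENNReal.toReal_ofReal (by linarith [ite_mem (σ j) j, bb_pos j])]
  simp only [e] at h
  exact h

lemma hasSum_nu (σ : ℕ → Bool) {F : ℝ → ℝ} (hF : Continuous F) (hC : ∀ t, |F t| ≤ 1) :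
    HasSum (fun j => aa j * F (th j) + bb j * (∫ t, F t ∂wh) +
      bb j * if σ j then ∫ t, F t ∂wh else ∫ t, F t ∂grid (nn j)) (∫ t, F t ∂nu σ) := by
  have h := hasSum_integral_measure (μ := di σ) (integrable_bdd (nuD σ) hF 1 hC)
  have e : ∀ j, ∫ t, F t ∂di σ j =
      aa j * F (th j) + (if σ j then 0 else bb j) * ∫ t, F t ∂grid (nn j) := fun j => by
    rw [di, integral_add_measure
      ((integrable_bdd _ hF 1 hC).smul_measure ENNReal.ofReal_ne_top)
      ((integrable_bdd _ hF 1 hC).smul_measure ENNReal.ofReal_ne_top),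
      integral_smul_measure, integral_smul_measure, integral_dirac, smul_eq_mul, smul_eq_mul,
      ENNReal.toReal_ofReal (aa_pos j).le, ENNReal.toReal_ofReal (ite_mem (σ j) j).2.2.1]
  simp only [e] at h
  have h2 := (hasSum_nuA σ hF hC).add h
  rw [nu, integral_add_measure (integrable_bdd _ hF 1 hC) (integrable_bdd _ hF 1 hC)]
  have e2 : (fun j => aa j * F (th j) + bb j * (∫ t, F t ∂wh) +
      bb j * if σ j then ∫ t, F t ∂wh else ∫ t, F t ∂grid (nn j)) =
      fun j => (bb j + if σ j then bb j else 0) * (∫ t, F t ∂wh) +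
        (aa j * F (th j) + (if σ j then 0 else bb j) * ∫ t, F t ∂grid (nn j)) := by
    funext j
    split_ifs <;> ring
  rw [e2]
  exact h2

lemma hasSum_mass (σ : ℕ → Bool) :
    HasSum (fun j => bb j + if σ j then bb j else 0) ((nuA σ).real Set.univ) := by
  simpa using hasSum_nuA σ (F := fun _ => 1) continuous_const (by simp)

lemma mass_mem (σ : ℕ → Bool) : 4 / 3 ≤ (nuA σ).real Set.univ ∧ (nuA σ).real Set.univ ≤ 8 / 3 :=
  ⟨hasSum_le (fun j => by linarith [ite_mem (σ j) j]) hasSum_bb (hasSum_mass σ),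
    (hasSum_le (fun j => by linarith [ite_mem (σ j) j]) (hasSum_mass σ)
      (hasSum_bb.add hasSum_bb)).trans (by norm_num)⟩

lemma mass_gap {σ τ : ℕ → Bool} {k : ℕ} (h : ∀ j < k, σ j = τ j) (h1 : σ k = true)
    (h2 : τ k = false) : (nuA τ).real Set.univ + 2 / 3 * bb k ≤ (nuA σ).real Set.univ := by
  have a1 : HasSum (fun j => if k < j then bb j else 0) (bb k / 3) := by
    rw [← hasSum_nat_add_iff' (k + 1), sum_eq_zero fun i hi =>
      if_neg (by have := mem_range.1 hi; omega), sub_zero]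
    have e : (fun n => if k < n + (k + 1) then bb (n + (k + 1)) else 0) =
        fun n => bb k / 4 * bb n := by
      funext n
      rw [if_pos (by omega), bb, bb, bb]
      ring
    have e2 : bb k / 3 = bb k / 4 * (4 / 3) := by ring
    rw [e, e2]
    exact hasSum_bb.mul_left _
  have a2 := hasSum_le (fun j => ?_) ((hasSum_mass τ).add (hasSum_ite_eq k (bb k)))
    ((hasSum_mass σ).add a1)
  · linarith
  · rcases lt_trichotomy j k with hj | rfl | hj
    · rw [h j hj, if_neg hj.ne, if_neg (not_lt.2 hj.le)]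
    · simp [h1, h2]
    · rw [if_neg hj.ne', if_pos hj]
      linarith [ite_mem (σ j) j, ite_mem (τ j) j]

lemma nu_univ_le (σ : ℕ → Bool) : (nu σ).real Set.univ ≤ 4 := by
  have h := hasSum_nu σ (F := fun _ => 1) continuous_const (by simp)
  simp only [mul_one, integral_const, smul_eq_mul, probReal_univ, ite_self] at h
  refine (hasSum_le (fun j => ?_) h
    (((hasSum_geometric_two.mul_left (1 / 2)).add hasSum_bb).add hasSum_bb)).trans (by norm_num)
  linarith [aa_le j]

lemma cos_nu_eq {σ τ : ℕ → Bool} {k : ℕ} (h : ∀ j < k, σ j = τ j) {z : ℤ}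
    (hz : |z| ≤ (2 * nn k : ℕ)) : ∫ t, cos (t * z) ∂nu σ = ∫ t, cos (t * z) ∂nu τ := by
  have h1 := hasSum_nu σ (F := fun t => cos (t * z)) (by fun_prop) fun _ => abs_cos_le_one _
  have h2 := hasSum_nu τ (F := fun t => cos (t * z)) (by fun_prop) fun _ => abs_cos_le_one _
  have e : ∀ j, (if σ j then ∫ t, cos (t * z) ∂wh else ∫ t, cos (t * z) ∂grid (nn j)) =
      if τ j then ∫ t, cos (t * z) ∂wh else ∫ t, cos (t * z) ∂grid (nn j) := fun j => by
    by_cases hj : j < k
    · rw [h j hj]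
    · rw [wh_grid (Nat.mul_le_mul_left 2 (nn_mono.monotone (not_lt.1 hj))) z hz, wh_cos,
        ite_self, ite_self]
  simp only [e] at h1
  exact h1.unique h2

lemma gf_nu_le (σ : ℕ → Bool) (k : ℕ) :
    ∫ t, gf (nn k) (WW k) t ^ 2 ∂nu σ ≤ aa k * ((AA k)⁻¹ + be k) ^ 2 + 6 * be k := by
  have h := hasSum_nu σ (F := fun t => gf (nn k) (WW k) t ^ 2) ((continuous_gf _ _).pow 2)
    fun t => by rw [abs_of_nonneg (sq_nonneg _)]; exact gf_sq_le_one _ _ _
  obtain ⟨hW1, hW⟩ := WW_spec k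
  have hn : WW k ≤ nn k := by have := WW_le_nn k; omega
  have hp : (1 : ℝ) ≤ pp k := by exact_mod_cast one_le_pp k
  have hb := be_pos k
  have hW2 : 1 / (WW k : ℝ) ≤ be k :=
    le_trans (div_le_div_of_nonneg_right (by nlinarith) (Nat.cast_nonneg _)) hW1
  have a1 : ∫ t, gf (nn k) (WW k) t ^ 2 ∂wh ≤ be k :=
    (Wh.integral_gf (fun z _ => wh_cos z) hW hn).trans hW2
  have a2 : ∀ j, ∫ t, gf (nn k) (WW k) t ^ 2 ∂grid (nn j) ≤ be k := fun j => by
    by_cases hj : j < k
    · exact (grid_far hW (Nat.cast_le.2 (pp_mono.monotone (Nat.succ_le_of_lt hj)))).trans hW1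
    · exact ((wh_grid (Nat.mul_le_mul_left 2 (nn_mono.monotone (not_lt.1 hj)))).integral_gf
        hW hn).trans hW2
  have a3 : ∀ j, aa j * gf (nn k) (WW k) (th j) ^ 2 ≤ be k * (3 / 2) * (1 / 2) ^ j +
      if j = k then aa k * ((AA k)⁻¹ + be k) ^ 2 else 0 := fun j => by
    have hj0 : 0 < be k * (1 / 2) ^ j := by positivity
    rcases lt_trichotomy j k with hj | rfl | hj
    · have b1 : (nn j : ℝ) ≤ pp k :=
        Nat.cast_le.2 ((Nat.le_succ _).trans (pp_mono.monotone (Nat.succ_le_of_lt hj)))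
      have b2 : 1 ≤ (pp k : ℝ) * th j := by
        have := mul_le_mul_of_nonneg_left b1 (th_pos j).le
        linarith [(th_mul_mem j).1]
      have b3 := (gf_far (n := nn k) hW (by linarith) b2 (th_le_pi j)).trans hW1
      have b4 := mul_le_mul (aa_le j) b3 (sq_nonneg _) (by positivity)
      rw [if_neg hj.ne]
      linarith
    · have b1 := pow_le_pow_left₀ (abs_nonneg _) (gf_th j) 2
      rw [sq_abs] at b1
      have b2 := mul_le_mul_of_nonneg_left b1 (aa_pos j).le
      rw [if_pos rfl]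
      linarith
    · have b1 := mul_le_of_le_one_right (aa_pos j).le (gf_sq_le_one (nn k) (WW k) (th j))
      rw [if_neg hj.ne']
      linarith [aa_le_be hj]
  have a4 := hasSum_le (fun j => ?_) h (((hasSum_geometric_two.mul_left (be k * (3 / 2))).add
    (hasSum_ite_eq k (aa k * ((AA k)⁻¹ + be k) ^ 2))).add (hasSum_bb.mul_left (2 * be k)))
  · linarith
  · have b1 := mul_le_mul_of_nonneg_left a1 (bb_pos j).le
    have b2 : (if σ j then ∫ t, gf (nn k) (WW k) t ^ 2 ∂wh
        else ∫ t, gf (nn k) (WW k) t ^ 2 ∂grid (nn j)) ≤ be k := by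
      split_ifs
      exacts [a1, a2 j]
    have b3 := mul_le_mul_of_nonneg_left b2 (bb_pos j).le
    linarith [a3 j]

lemma aa_le_nu (σ : ℕ → Bool) (k : ℕ) : aa k ≤ (nu σ).real {th k} := by
  have h1 : di σ k ≤ nu σ := (Measure.le_sum (di σ) k).trans (Measure.le_add_left le_rfl)
  have h2 : ENNReal.ofReal (aa k) ≤ di σ k {th k} := by
    rw [di, Measure.add_apply, Measure.smul_apply, Measure.dirac_apply_of_mem (Set.mem_singleton _),
      smul_eq_mul, mul_one]
    exact le_self_add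
  exact (ENNReal.ofReal_le_iff_le_toReal (measure_ne_top _ _)).1 (h2.trans (h1 _))

lemma wh_le_nu (σ : ℕ → Bool) : wh ≤ nu σ := by
  refine le_trans ?_ ((Measure.le_sum (ac σ) 0).trans (Measure.le_add_right le_rfl))
  intro S
  rw [ac, Measure.smul_apply, smul_eq_mul]
  refine le_mul_of_one_le_left zero_le (ENNReal.one_le_ofReal.2 ?_)
  have : bb 0 = 1 := by simp [bb]
  linarith [ite_mem (σ 0) 0]

lemma nuA_ac (σ : ℕ → Bool) : nuA σ ≪ volume :=
  Measure.absolutelyContinuous_sum_left fun _ => wh_ac.smul_left _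

lemma nuD_null (σ : ℕ → Bool) {S : Set ℝ} (h1 : ∀ j, th j ∉ S)
    (h2 : ∀ M i, i < M → sp M i ∉ S) : nuD σ S = 0 := by
  rw [nuD, Measure.sum_apply_eq_zero]
  intro j
  rw [di, Measure.add_apply, Measure.smul_apply, Measure.smul_apply, Measure.dirac_apply,
    Set.indicator_of_notMem (h1 j), grid_null _ (h2 _), smul_zero, smul_zero, add_zero]

lemma nuD_countable (σ : ℕ → Bool) : ∃ S : Set ℝ, S.Countable ∧ nuD σ Sᶜ = 0 :=
  ⟨Set.range th ∪ Set.range fun p : ℕ × ℕ => sp p.1 p.2,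
    (Set.countable_range _).union (Set.countable_range _),
    nuD_null σ (fun j h => h (Or.inl ⟨j, rfl⟩)) fun M i _ h => h (Or.inr ⟨(M, i), rfl⟩)⟩

lemma nu_supp (σ : ℕ → Bool) : nu σ (Set.Icc (-π) π)ᶜ = 0 := by
  have h1 : nuA σ (Set.Icc (-π) π)ᶜ = 0 := by
    rw [nuA, Measure.sum_apply_eq_zero]
    intro j
    rw [ac, Measure.smul_apply, wh_compl, smul_zero]
  rw [nu, Measure.add_apply, h1, nuD_null σ, add_zero]
  · exact fun j h => h ⟨by linarith [th_pos j, pi_pos], th_le_pi j⟩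
  · intro M i hi h
    have : 0 ≤ sp M i := by unfold sp; positivity
    exact h ⟨by linarith [pi_pos], (sp_mem hi).2⟩

lemma aa_le_ball (σ : ℕ → Bool) {k : ℕ} {δ : ℝ} (h : th k ≤ δ) :
    aa k ≤ (sy (nu σ)).real (closedBall 0 δ) := by
  have h1 : ‖pt (th k)‖ ≤ δ := by rwa [norm_pt, abs_of_pos (th_pos k)]
  have h2 := sy_ge (nu σ) (measurableSet_closedBall (x := 0) (ε := δ)) (θ := th k)
    (by simpa using h1) (by simpa using h1)
  linarith [aa_le_nu σ k, aa_pos k]

lemma ball_pos (σ : ℕ → Bool) (δ : ℝ) (h : 0 < δ) : 0 < (sy (nu σ)).real (closedBall 0 δ) := by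
  obtain ⟨k, hk⟩ := (tendsto_th.eventually (ge_mem_nhds h)).exists
  exact (aa_pos k).trans_le (aa_le_ball σ hk)

lemma cond_S (σ : ℕ → Bool) :
    Tendsto (fun δ : ℝ => log ((sy (nu σ)).real (closedBall 0 δ)) / log δ) (𝓝[>] 0) (𝓝 0) := by
  have hlow : Tendsto (fun δ : ℝ => log 8 / log δ) (𝓝[>] 0) (𝓝 0) :=
    (tendsto_const_nhds (x := log 8)).div_atBot tendsto_log_nhdsGT_zero
  refine tendsto_order.2 ⟨fun a ha => ?_, fun a ha => ?_⟩
  · filter_upwards [hlow.eventually (lt_mem_nhds ha), Ioo_mem_nhdsGT (zero_lt_one' ℝ)]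
      with δ h1 hδ
    refine h1.trans_le (div_le_div_of_nonpos_of_le (log_neg hδ.1 hδ.2).le
      (log_le_log (ball_pos σ δ hδ.1) ?_))
    have h2 : (sy (nu σ)).real (closedBall 0 δ) ≤ (sy (nu σ)).real Set.univ :=
      measureReal_mono (Set.subset_univ _) (measure_ne_top _ _)
    rw [sy_univ] at h2
    linarith [nu_univ_le σ]
  · obtain ⟨k₀, hk₀⟩ := exists_nat_gt (1 / a)
    filter_upwards [Ioo_mem_nhdsGT (th_pos k₀)] with δ hδ
    have hex : ∃ j, th (k₀ + j) ≤ δ := by
      obtain ⟨N, hN⟩ := eventually_atTop.1 (tendsto_th.eventually (ge_mem_nhds hδ.1))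
      exact ⟨N, hN _ (Nat.le_add_left _ _)⟩
    have h0 : Nat.find hex ≠ 0 := fun h0 => by
      have := Nat.find_spec hex
      rw [h0] at this
      exact absurd this (not_le.2 hδ.2)
    obtain ⟨i, hi⟩ := Nat.exists_eq_succ_of_ne_zero h0
    have h1 := Nat.find_spec hex
    have h2 := not_le.1 (Nat.find_min hex (show i < Nat.find hex by omega))
    rw [hi] at h1
    have h3 := log_le_log (aa_pos _) (aa_le_ball σ h1)
    have h4 := log_lt_log hδ.1 (h2.trans_le (th_le_pow _))
    rw [log_pow] at h4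
    have h5 : log δ < 0 := log_neg hδ.1 (hδ.2.trans_le (th_le_one _))
    have h6 : log (aa (k₀ + i + 1)) < 0 := log_neg (aa_pos _) ((aa_le_half _).trans_lt (by norm_num))
    have h7 : 1 < a * (k₀ + i : ℕ) := by
      rw [div_lt_iff₀ ha] at hk₀
      have : (0 : ℝ) ≤ i := Nat.cast_nonneg i
      push_cast
      nlinarith
    rw [div_lt_iff_of_neg h5]
    have h8 := mul_lt_mul_of_pos_left h4 ha
    have h9 := mul_lt_mul_of_neg_right h7 h6
    have h10 : log (aa (k₀ + i + 1)) ≤ log ((sy (nu σ)).real (closedBall 0 δ)) := h3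
    linarith

/-- At the scale `nn k` the equilibrium potential at the centre is `AA k` up to one. -/
lemma eqPot_centre (σ : ℕ → Bool) (k : ℕ) {h : (Fin 1 → ℤ) → ℝ}
    (hh : IsEqPot (sy (nu σ)) (latBall 1 (nn k)) h) : |h 0 - AA k| ≤ 1 := by
  obtain ⟨hη, hη2⟩ := inv_AA k
  obtain ⟨g₀, hg1, hg2⟩ := test_atom (nu σ) (aa_pos k) hη (aa_le_nu σ k)
  obtain ⟨v, hv1, hv2⟩ := window (nu σ) (WW_spec k).2
    (show WW k ≤ nn k by have := WW_le_nn k; omega)
  have ha := aa_pos k
  have hb := be_pos k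
  have h1 := eqPot_near (sy (nu σ)) (sy_symm _) (ball_pos σ) (finite_latBall_one _) hh
    (g₀ := g₀) (fun x hx => by
      rw [hg2, le_div_iff₀ hη, one_mul]
      exact le_cos_th k (mem_latBall_one.1 hx)) hv2 (by positivity) hg1
    (Y := 2 * (aa k * ((AA k)⁻¹ + be k) ^ 2 + 6 * be k)) (K := 8)
    (by rw [hv1]; linarith [gf_nu_le σ k])
    (by
      rw [Kc_sy]
      simp only [Pi.zero_apply, Int.cast_zero, mul_zero, cos_zero, integral_const, smul_eq_mul,
        mul_one]
      linarith [nu_univ_le σ]) (by norm_num)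
    (by
      have e : (2 * aa k * (AA k)⁻¹ ^ 2) ^ 2 = 256 * be k := by
        unfold be
        ring
      have b1 := aa_le_half k
      have b2 := be_le_half k
      have b3 : aa k * (2 * (AA k)⁻¹ + be k) ≤ 1 / 2 * (3 / 2) :=
        mul_le_mul b1 (by linarith) (by positivity) (by norm_num)
      have b4 := mul_le_mul_of_nonneg_left b3 hb.le
      rw [e]
      nlinarith) 0
  rwa [hg2, Pi.zero_apply, Int.cast_zero, mul_zero, cos_zero, one_div, inv_inv] at h1

end Pool.Agent.Lib.MP_ecc084_pr.BK
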